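import Mathlib
import Pool.Agent.NilpotentNAry.Defs
import Pool.Agent.NilpotentNAry.Main

set_option autoImplicit false

open Pool.Agent.NilpotentNAry

namespace Pool.Agent.Results.MP_e0acc1_al.Dimension

/-- **The dimension of the variety of nilpotent `(A,C)`-commutative `n`-ary algebra structures
on `ℂ^k`.** With `a = |A|` and `c = |C|` it is
`∑_{p<k} binom(p, a) * binom(p + c - 1, c) * p^(n-a-c) + binom(k, 2) - binom(min(k, a), 2)`. -/
theorem result (n k : ℕ) (hn : 1 ≤ n) (A C : Finset (Fin n)) (hAC : Disjoint A C) :
    dimension (nilpotentVariety n k A C) =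
      ((∑ p ∈ Finset.range k, p.choose A.card * p.multichoose C.card *
        p ^ (n - A.card - C.card) + k.choose 2 - (min k A.card).choose 2 : ℕ) : WithBot ℕ∞) :=
  dimension_nilpotentVariety hn hAC

end Pool.Agent.Results.MP_e0acc1_al.Dimension
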